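import Mathlib
import Pool.Agent.Cov.PNT

open Filter Topology Asymptotics

namespace Pool.Agent.Results.MP_1b5634_co.UpperOne

/-- The `n × n` grid `{1, …, n}²` of integer points. -/
noncomputable def grid (n : ℕ) : Finset (ℤ × ℤ) := Finset.Icc (1 : ℤ) n ×ˢ Finset.Icc (1 : ℤ) n

/-- An integer point, seen in the Euclidean plane. -/
noncomputable def toPlane (p : ℤ × ℤ) : EuclideanSpace ℝ (Fin 2) := !₂[(p.1 : ℝ), (p.2 : ℝ)]

/-- No three (distinct) points of `S` lie on a common line. -/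
def GeneralPosition (S : Set (ℤ × ℤ)) : Prop :=
  ∀ a ∈ S, ∀ b ∈ S, ∀ c ∈ S, a ≠ b → b ≠ c → a ≠ c →
    ¬ Collinear ℝ {toPlane a, toPlane b, toPlane c}

/-- `S` can be partitioned into (at most) `k` sets in general position: `f` gives the number
of the part of each point. -/
def Partitionable (S : Finset (ℤ × ℤ)) (k : ℕ) : Prop :=
  ∃ f : ℤ × ℤ → ℕ, (∀ p ∈ S, f p < k) ∧ ∀ i, GeneralPosition {p | p ∈ S ∧ f p = i}

/-- `gp(S)`: the least number of general-position sets into which `S` can be partitioned. -/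
noncomputable def gp (S : Finset (ℤ × ℤ)) : ℕ := sInf {k | Partitionable S k}

lemma collinear_cross {a b c : ℤ × ℤ} (h : Collinear ℝ {toPlane a, toPlane b, toPlane c}) :
    (b.1 - a.1) * (c.2 - a.2) = (c.1 - a.1) * (b.2 - a.2) := by
  have ha : toPlane a ∈ ({toPlane a, toPlane b, toPlane c} : Set (EuclideanSpace ℝ (Fin 2))) := by
    simp
  rw [collinear_iff_of_mem ha] at h
  obtain ⟨v, hv⟩ := h
  obtain ⟨r, hr⟩ := hv (toPlane b) (by simp)
  obtain ⟨s, hs⟩ := hv (toPlane c) (by simp)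
  have hr0 := congrArg (fun z : EuclideanSpace ℝ (Fin 2) => z 0) hr
  have hr1 := congrArg (fun z : EuclideanSpace ℝ (Fin 2) => z 1) hr
  have hs0 := congrArg (fun z : EuclideanSpace ℝ (Fin 2) => z 0) hs
  have hs1 := congrArg (fun z : EuclideanSpace ℝ (Fin 2) => z 1) hs
  simp [toPlane] at hr0 hr1 hs0 hs1
  have : ((b.1 : ℝ) - a.1) * (c.2 - a.2) = (c.1 - a.1) * (b.2 - a.2) := by
    rw [hr0, hr1, hs0, hs1]; ring
  exact_mod_cast this

lemma prime_bound {n p : ℕ} (hp : p.Prime) (hnp : n ≤ p) : gp (grid n) ≤ p := by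
  apply Nat.sInf_le
  have hp0 : (0 : ℤ) < p := by exact_mod_cast hp.pos
  refine ⟨fun q => ((q.2 - q.1 ^ 2) % (p : ℤ)).toNat, ?_, ?_⟩
  · intro q _
    have h1 := Int.emod_nonneg (q.2 - q.1 ^ 2) hp0.ne'
    have h2 := Int.emod_lt_of_pos (q.2 - q.1 ^ 2) hp0
    have : (((q.2 - q.1 ^ 2) % (p : ℤ)).toNat : ℤ) < p := by
      rw [Int.toNat_of_nonneg h1]; exact h2
    exact_mod_cast this
  · intro i a ha b hb c hc hab hbc hac hcol
    simp only [grid, Set.mem_ofPred_eq, Finset.mem_product, Finset.mem_Icc] at ha hb hc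
    obtain ⟨⟨⟨a1, a2⟩, a3, a4⟩, a5⟩ := ha
    obtain ⟨⟨⟨b1, b2⟩, b3, b4⟩, b5⟩ := hb
    obtain ⟨⟨⟨c1, c2⟩, c3, c4⟩, c5⟩ := hc
    have hn : (n : ℤ) ≤ p := by exact_mod_cast hnp
    have key : ∀ u v : ℤ × ℤ, ((u.2 - u.1 ^ 2) % (p : ℤ)).toNat = i →
        ((v.2 - v.1 ^ 2) % (p : ℤ)).toNat = i →
        (p : ℤ) ∣ (v.2 - v.1 ^ 2) - (u.2 - u.1 ^ 2) := by
      intro u v hu hv
      have h1 := Int.emod_nonneg (u.2 - u.1 ^ 2) hp0.ne'
      have h2 := Int.emod_nonneg (v.2 - v.1 ^ 2) hp0.ne'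
      have h3 : (u.2 - u.1 ^ 2) % (p : ℤ) = (v.2 - v.1 ^ 2) % (p : ℤ) := by omega
      exact Int.ModEq.dvd h3
    have small : ∀ z : ℤ, (p : ℤ) ∣ z → -(p : ℤ) < z → z < p → z = 0 := by
      intro z hz h1 h2
      exact Int.eq_zero_of_abs_lt_dvd hz (abs_lt.mpr ⟨h1, h2⟩)
    have kab := key a b a5 b5
    have kac := key a c a5 c5
    have kbc := key b c b5 c5
    have dx : ∀ u v : ℤ × ℤ, 1 ≤ u.1 → u.1 ≤ n → 1 ≤ u.2 → u.2 ≤ n →
        1 ≤ v.1 → v.1 ≤ n → 1 ≤ v.2 → v.2 ≤ n → u ≠ v →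
        (p : ℤ) ∣ (v.2 - v.1 ^ 2) - (u.2 - u.1 ^ 2) → ¬ (p : ℤ) ∣ v.1 - u.1 := by
      intro u v h1 h2 h3 h4 h5 h6 h7 h8 hne hd hdx
      have e1 : v.1 - u.1 = 0 := small _ hdx (by omega) (by omega)
      have e2 : v.1 = u.1 := by omega
      rw [e2] at hd
      have e3 : v.2 - u.2 = 0 := small _ (by convert hd using 1; ring) (by omega) (by omega)
      exact hne (Prod.ext e2.symm (by omega))
    have nab := dx a b a1 a2 a3 a4 b1 b2 b3 b4 hab kab
    have nac := dx a c a1 a2 a3 a4 c1 c2 c3 c4 hac kac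
    have nbc := dx b c b1 b2 b3 b4 c1 c2 c3 c4 hbc kbc
    have hcr := collinear_cross hcol
    have hpp : Prime (p : ℤ) := Nat.prime_iff_prime_int.mp hp
    have hdiv : (p : ℤ) ∣ (b.1 - a.1) * ((c.1 - a.1) * (c.1 - b.1)) := by
      have e : (b.1 - a.1) * ((c.1 - a.1) * (c.1 - b.1)) =
          (c.1 - a.1) * ((b.2 - b.1 ^ 2) - (a.2 - a.1 ^ 2)) -
          (b.1 - a.1) * ((c.2 - c.1 ^ 2) - (a.2 - a.1 ^ 2)) := by
        linear_combination hcr
      rw [e]
      exact dvd_sub (Dvd.dvd.mul_left kab _) (Dvd.dvd.mul_left kac _)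
    rcases hpp.dvd_or_dvd hdiv with h | h
    · exact nab h
    · rcases hpp.dvd_or_dvd h with h | h
      · exact nac h
      · exact nbc h

lemma exists_prime_between {ε : ℝ} (hε : 0 < ε) :
    ∀ᶠ x : ℝ in atTop, ∃ p : ℕ, p.Prime ∧ x < p ∧ (p : ℝ) ≤ (1 + ε) * x := by
  have h1 := Pool.Agent.Cov.PNT.theta_div_tendsto
  have h2 : Tendsto (fun x : ℝ => Chebyshev.theta ((1 + ε) * x) / x) atTop (𝓝 (1 + ε)) := by
    have h3 := (h1.comp (tendsto_id.const_mul_atTop (by linarith : (0 : ℝ) < 1 + ε))).mul_const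
      (1 + ε)
    rw [one_mul] at h3
    refine h3.congr' ?_
    filter_upwards [eventually_gt_atTop 0] with x hx
    simp only [Function.comp, id]
    field_simp
  have h4 := h2.sub h1
  have h5 : ∀ᶠ x : ℝ in atTop, 0 < Chebyshev.theta ((1 + ε) * x) / x - Chebyshev.theta x / x :=
    h4.eventually (lt_mem_nhds (by linarith))
  filter_upwards [h5, eventually_gt_atTop 0] with x hx hx0
  by_contra hno
  push Not at hno
  have : Chebyshev.theta ((1 + ε) * x) ≤ Chebyshev.theta x := by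
    unfold Chebyshev.theta
    apply Finset.sum_le_sum_of_subset_of_nonneg
    · intro p hp
      simp only [Finset.mem_filter, Finset.mem_Ioc] at hp ⊢
      obtain ⟨⟨hp0, hp1⟩, hpp⟩ := hp
      have hp2 : (p : ℝ) ≤ (1 + ε) * x := (Nat.le_floor_iff (by positivity)).mp hp1
      refine ⟨⟨hp0, ?_⟩, hpp⟩
      apply Nat.le_floor
      by_contra hlt
      push Not at hlt
      exact absurd hp2 (not_le.mpr (hno p hpp hlt))
    · intro i hi _
      simp only [Finset.mem_filter, Finset.mem_Ioc] at hi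
      exact Real.log_nonneg (by exact_mod_cast hi.2.one_le)
  rw [← sub_div] at hx
  have := div_nonpos_of_nonpos_of_nonneg (sub_nonpos.mpr this) hx0.le
  linarith

lemma eps_bound {ε : ℝ} (hε : 0 < ε) :
    ∀ᶠ n : ℕ in atTop, (gp (grid n) : ℝ) ≤ (1 + ε) * n := by
  have h := (tendsto_natCast_atTop_atTop (R := ℝ)).eventually (exists_prime_between hε)
  filter_upwards [h] with n hn
  obtain ⟨p, hp, h1, h2⟩ := hn
  have h3 : gp (grid n) ≤ p := prime_bound hp (by exact_mod_cast h1.le)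
  exact le_trans (by exact_mod_cast h3) h2

/-- `gp(G_n) ≤ p` for every prime `p ≥ n`; hence `gp(G_n) ≤ n + o(n)`: the optimal constant `c` of
the question satisfies `c ≤ 1` (the listed upper bound is `2`). -/
theorem result :
    (∀ n p : ℕ, p.Prime → n ≤ p → gp (grid n) ≤ p) ∧
    (∃ g : ℕ → ℝ, g =o[atTop] (fun n : ℕ => (n : ℝ)) ∧
      ∀ n : ℕ, (gp (grid n) : ℝ) ≤ n + g n) ∧
    (∀ n : ℕ, Partitionable (grid n) (gp (grid n))) := by
  refine ⟨fun n p hp h => prime_bound hp h, ?_, ?_⟩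
  · refine ⟨fun n => max ((gp (grid n) : ℝ) - n) 0, ?_, ?_⟩
    · rw [isLittleO_iff]
      intro c hc
      filter_upwards [eps_bound hc] with n hn
      rw [Real.norm_of_nonneg (le_max_right _ _), Real.norm_of_nonneg (Nat.cast_nonneg n)]
      refine max_le (by linarith) (by positivity)
    · intro n
      have := le_max_left ((gp (grid n) : ℝ) - n) 0
      linarith
  · intro n
    have hne : {k | Partitionable (grid n) k}.Nonempty := by
      classical
      let e := (grid n).equivFin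
      refine ⟨(grid n).card, fun q => if h : q ∈ grid n then (e ⟨q, h⟩ : ℕ) else 0, ?_, ?_⟩
      · intro q hq
        simp only [hq, dif_pos]
        exact (e ⟨q, hq⟩).2
      · intro i a ha b hb c hc hab _ _ _
        obtain ⟨ha1, ha2⟩ := ha
        obtain ⟨hb1, hb2⟩ := hb
        simp only [ha1, hb1, dif_pos] at ha2 hb2
        have : e ⟨a, ha1⟩ = e ⟨b, hb1⟩ := Fin.ext (ha2.trans hb2.symm)
        have := congrArg Subtype.val (e.injective this)
        exact hab this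
    exact Nat.sInf_mem hne

end Pool.Agent.Results.MP_1b5634_co.UpperOne
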